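import Pool.Agent.Helper63.Sey3.Goals
import Mathlib

/-!
# Project SEY3 (MP_b6b2d3_co), packet RES: resampling the priority lists
-/

set_option autoImplicit false

namespace Pool.Agent.Helper91.Sey3

open Pool.Agent.Helper41.Girth4
open Pool.Agent.Helper63.Sey3

theorem pr_setpm {V : Type} [Finite V] (P : Sy V) (F : P.Om → Prop) :
    Pr F = Pr (fun z : P.Om × (V → Equiv.Perm (Fin P.q)) => F (P.setpm z.1 z.2)) := by
  let e : P.Om × (V → Equiv.Perm (Fin P.q)) ≃ P.Om × (V → Equiv.Perm (Fin P.q)) :=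
    { toFun := fun z => (P.setpm z.1 z.2, fun v => P.pm (z.1 v))
      invFun := fun z => (P.setpm z.1 z.2, fun v => P.pm (z.1 v))
      left_inv := fun z => rfl
      right_inv := fun z => rfl }
  exact (Pr_fst (β := V → Equiv.Perm (Fin P.q)) F).symm.trans
    (Pr_equiv e (fun z => F z.1)).symm

theorem goalRES : GoalRES := by
  intro V _ P G E p hp hG
  classical
  have := Fintype.ofFinite P.Om
  have hiff : ∀ ω π, G (P.setpm ω π) ↔ G ω := fun ω π =>
    ⟨fun h => hG (P.setpm ω π) (fun v => P.pm (ω v)) h, hG ω π⟩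
  refine ⟨fun h => ?_, fun h => ?_⟩
  · rw [pr_setpm P fun ω => G ω ∧ E ω]
    refine Pr_le_of_forall (fun (ω : P.Om) (π : V → Equiv.Perm (Fin P.q)) =>
      G (P.setpm ω π) ∧ E (P.setpm ω π)) p (fun ω => ?_) hp
    by_cases hω : G ω
    · exact le_trans (Pr_mono fun π hπ => hπ.2) (h ω hω)
    · refine le_trans (le_of_eq ?_) hp
      rw [← Pr_false (α := V → Equiv.Perm (Fin P.q))]
      exact Pr_congr fun π => ⟨fun hπ => hω ((hiff ω π).1 hπ.1), False.elim⟩
  · rw [pr_setpm P fun ω => G ω ∧ E ω, Pr_avg (fun (ω : P.Om) (π : V → Equiv.Perm (Fin P.q)) =>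
      G (P.setpm ω π) ∧ E (P.setpm ω π)), Pr_eq_sum G, ← mul_div_assoc, Finset.mul_sum]
    refine div_le_div_of_nonneg_right (Finset.sum_le_sum fun ω _ => ?_) (Nat.cast_nonneg _)
    split_ifs with hω
    · rw [mul_one]
      exact le_trans (h ω hω) (Pr_mono fun π hπ => ⟨(hiff ω π).2 hω, hπ⟩)
    · rw [mul_zero]
      exact Pr_nonneg _

end Pool.Agent.Helper91.Sey3
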