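import Pool.Agent.Helper63.Sey3.Goals
import Mathlib

/-!
# Project SEY3 (MP_b6b2d3_co), packet SEU: few events occur, adaptive version
-/

set_option autoImplicit false

namespace Pool.Agent.Helper91.Sey3

open Pool.Agent.Helper41.Girth4
open Pool.Agent.Helper63.Sey3

section

variable {I L : Type} [Fintype I] [DecidableEq I] [Fintype L]

/-- resampling one coordinate -/
theorem sum_upd (m : I) (F : (I → L) → ℝ) :
    ∑ ω : I → L, ∑ l : L, F (Function.update ω m l) = Fintype.card L * ∑ ω : I → L, F ω := by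
  classical
  let e : (I → L) × L ≃ (I → L) × L :=
    { toFun := fun z => (Function.update z.1 m z.2, z.1 m)
      invFun := fun z => (Function.update z.1 m z.2, z.1 m)
      left_inv := fun z => by
        refine Prod.ext ?_ ?_
        · simp
        · simp
      right_inv := fun z => by
        refine Prod.ext ?_ ?_
        · simp
        · simp }
  rw [← Fintype.sum_prod_type' (f := fun (ω : I → L) (l : L) => F (Function.update ω m l))]
  rw [show (∑ z : (I → L) × L, F (Function.update z.1 m z.2)) = ∑ z : (I → L) × L, F z.1 from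
    Fintype.sum_equiv e _ _ fun z => rfl]
  rw [Fintype.sum_prod_type' (f := fun (ω : I → L) (_ : L) => F ω), Finset.mul_sum]
  refine Finset.sum_congr rfl fun ω _ => ?_
  rw [Finset.sum_const, nsmul_eq_mul, Finset.card_univ]

open Classical in
/-- the weight -/
noncomputable def wh (hit : I → (I → L) → Prop) (i : I) (ω : I → L) : ℝ :=
  if hit i ω then Real.exp 1 else 1

omit [DecidableEq I] [Fintype L] [Fintype I] in
theorem wh_pos (hit : I → (I → L) → Prop) (i : I) (ω : I → L) : 0 < wh hit i ω := by
  unfold wh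
  split_ifs
  · exact Real.exp_pos 1
  · exact one_pos

theorem sum_wh [Nonempty L] (hit : I → (I → L) → Prop) (i : I) (ω : I → L) (ν : ℝ)
    (h : Pr (fun l : L => hit i (Function.update ω i l)) ≤ ν) :
    ∑ l : L, wh hit i (Function.update ω i l) ≤ Fintype.card L * (1 + (Real.exp 1 - 1) * ν) := by
  classical
  have hL : (0 : ℝ) < Fintype.card L := by exact_mod_cast Fintype.card_pos
  rw [Pr_eq_sum, div_le_iff₀ hL] at h
  have h1 : ∀ l : L, wh hit i (Function.update ω i l) =
      1 + (Real.exp 1 - 1) * (if hit i (Function.update ω i l) then (1 : ℝ) else 0) := by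
    intro l
    unfold wh
    split_ifs
    · ring
    · ring
  have he : 0 ≤ Real.exp 1 - 1 := by
    have := Real.add_one_le_exp (1 : ℝ)
    linarith
  rw [Finset.sum_congr rfl fun l _ => h1 l, Finset.sum_add_distrib, Finset.sum_const,
    nsmul_eq_mul, Finset.card_univ, mul_one, ← Finset.mul_sum]
  have := mul_le_mul_of_nonneg_left h he
  linarith

theorem main [Nonempty L] (rk : I → ℕ) (hit : I → (I → L) → Prop) (ν : ℝ) (hν : 0 ≤ ν) :
    ∀ (k : ℕ) (S : Finset I), S.card = k → Set.InjOn rk (S : Set I) →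
    (∀ i ∈ S, ∀ ω ω' : I → L, (∀ j, (j ∈ S → rk j ≤ rk i) → ω j = ω' j) → hit i ω → hit i ω') →
    (∀ i ∈ S, ∀ ω, Pr (fun l : L => hit i (Function.update ω i l)) ≤ ν) →
    ∑ ω : I → L, ∏ i ∈ S, wh hit i ω ≤
      (1 + (Real.exp 1 - 1) * ν) ^ k * Fintype.card (I → L) := by
  classical
  have hC : 0 ≤ 1 + (Real.exp 1 - 1) * ν := by
    have he : 0 ≤ Real.exp 1 - 1 := by
      have := Real.add_one_le_exp (1 : ℝ)
      linarith
    have := mul_nonneg he hν
    linarith
  have hL : (0 : ℝ) < Fintype.card L := by exact_mod_cast Fintype.card_pos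
  intro k
  induction k with
  | zero =>
    intro S hS _ _ _
    rw [Finset.card_eq_zero.1 hS, pow_zero, one_mul]
    refine le_of_eq ?_
    simp
  | succ k ih =>
    intro S hS hinj hdep hpr
    have hne : S.Nonempty := Finset.card_pos.1 (by omega)
    obtain ⟨m, hm, hmax⟩ := S.exists_max_image rk hne
    have hlt : ∀ i ∈ S.erase m, rk i < rk m := by
      intro i hi
      have hi' := Finset.mem_erase.1 hi
      exact lt_of_le_of_ne (hmax i hi'.2) fun h => hi'.1 (hinj hi'.2 hm h)
    have hI := ih (S.erase m) (by rw [Finset.card_erase_of_mem hm, hS]; rfl)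
      (hinj.mono fun x hx => Finset.mem_of_mem_erase hx)
      (fun i hi ω ω' h => hdep i (Finset.mem_of_mem_erase hi) ω ω' fun j hj =>
        h j fun hj' => hj (Finset.mem_of_mem_erase hj'))
      (fun i hi => hpr i (Finset.mem_of_mem_erase hi))
    have hinv : ∀ i ∈ S.erase m, ∀ (ω : I → L) (l : L),
        wh hit i (Function.update ω m l) = wh hit i ω := by
      intro i hi ω l
      have key : ∀ ω ω' : I → L, (∀ j, j ≠ m → ω j = ω' j) → hit i ω → hit i ω' :=
        fun ω ω' h => hdep i (Finset.mem_of_mem_erase hi) ω ω' fun j hj =>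
          h j fun hjm => absurd (hj (hjm ▸ hm)) (by rw [hjm]; exact not_le.2 (hlt i hi))
      have h1 : hit i (Function.update ω m l) ↔ hit i ω :=
        ⟨key _ _ fun j hj => Function.update_of_ne hj _ _,
          key _ _ fun j hj => (Function.update_of_ne hj _ _).symm⟩
      unfold wh
      simp only [h1]
    have hstep : (Fintype.card L : ℝ) * ∑ ω : I → L, ∏ i ∈ S, wh hit i ω ≤
        Fintype.card L * ((1 + (Real.exp 1 - 1) * ν) *
          ∑ ω : I → L, ∏ i ∈ S.erase m, wh hit i ω) := by
      rw [← sum_upd m fun ω => ∏ i ∈ S, wh hit i ω, Finset.mul_sum, Finset.mul_sum]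
      refine Finset.sum_le_sum fun ω _ => ?_
      have h2 : ∀ l : L, ∏ i ∈ S, wh hit i (Function.update ω m l) =
          wh hit m (Function.update ω m l) * ∏ i ∈ S.erase m, wh hit i ω := by
        intro l
        rw [← Finset.mul_prod_erase S _ hm]
        exact congrArg _ (Finset.prod_congr rfl fun i hi => hinv i hi ω l)
      rw [Finset.sum_congr rfl fun l _ => h2 l, ← Finset.sum_mul, ← mul_assoc]
      exact mul_le_mul_of_nonneg_right (sum_wh hit m ω ν (hpr m hm ω))
        (Finset.prod_nonneg fun i _ => (wh_pos hit i ω).le)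
    have h3 := le_of_mul_le_mul_left hstep hL
    refine h3.trans ((mul_le_mul_of_nonneg_left hI hC).trans (le_of_eq ?_))
    ring

end

theorem goalSEU : GoalSEU := by
  intro I L _ _ _ _ S rk hit ν d hd hinj hν hdep hpr y
  classical
  have hm := main rk hit ν hν S.card S rfl hinj hdep hpr
  have hN : (0 : ℝ) < Fintype.card (I → L) := by exact_mod_cast Fintype.card_pos
  have hG : ∀ ω : I → L, ∏ i ∈ S, wh hit i ω =
      Real.exp (Nat.card {i // i ∈ S ∧ hit i ω} : ℝ) := by
    intro ω
    have h1 : Nat.card {i // i ∈ S ∧ hit i ω} = (S.filter fun i => hit i ω).card := by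
      rw [Nat.card_eq_fintype_card, Fintype.card_subtype]
      refine congrArg Finset.card (Finset.ext fun i => ?_)
      simp
    unfold wh
    rw [Finset.prod_ite, Finset.prod_const, Finset.prod_const_one, mul_one, h1,
      ← Real.exp_nat_mul, mul_one]
  have hC : (1 + (Real.exp 1 - 1) * ν) ^ S.card ≤ Real.exp (2 * ν * d) := by
    have he : Real.exp 1 < 3 := lt_trans Real.exp_one_lt_d9 (by norm_num)
    have he1 : 0 ≤ Real.exp 1 - 1 := by
      have := Real.add_one_le_exp (1 : ℝ)
      linarith
    have h0 : 0 ≤ 1 + (Real.exp 1 - 1) * ν := by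
      have := mul_nonneg he1 hν
      linarith
    have h1 : 1 + (Real.exp 1 - 1) * ν ≤ Real.exp (2 * ν) := by
      have h2 := Real.add_one_le_exp (2 * ν)
      have h3 : (Real.exp 1 - 1) * ν ≤ 2 * ν := mul_le_mul_of_nonneg_right (by linarith) hν
      linarith
    refine (pow_le_pow_left₀ h0 h1 _).trans ?_
    rw [← Real.exp_nat_mul]
    refine Real.exp_le_exp.2 ?_
    have h4 : (S.card : ℝ) ≤ d := by exact_mod_cast hd
    have h5 : 0 ≤ 2 * ν := by linarith
    have h6 := mul_le_mul_of_nonneg_left h4 h5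
    linarith
  rw [Pr_eq_sum, div_le_iff₀ hN]
  have h7 : ∀ ω : I → L, (if y ≤ (Nat.card {i // i ∈ S ∧ hit i ω} : ℝ) then (1 : ℝ) else 0) ≤
      Real.exp (-y) * ∏ i ∈ S, wh hit i ω := by
    intro ω
    rw [hG, ← Real.exp_add]
    split_ifs with h
    · rw [← Real.exp_zero]
      exact Real.exp_le_exp.2 (by linarith)
    · exact (Real.exp_pos _).le
  refine (Finset.sum_le_sum fun ω _ => h7 ω).trans ?_
  rw [← Finset.mul_sum, sub_eq_add_neg, Real.exp_add, mul_comm (Real.exp (2 * ν * d)), mul_assoc]
  refine mul_le_mul_of_nonneg_left (hm.trans ?_) (Real.exp_pos _).le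
  exact mul_le_mul_of_nonneg_right hC hN.le

end Pool.Agent.Helper91.Sey3
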